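import Mathlib
import Pool.Agent.W608.PR.Final
import Pool.Agent.W608.PR.Proj

/-!
# The Hilbert function of general fat points: explicit bounds in every dimension

Let `n ≥ 2`, `m ≥ 1` and `D = (n m) ^ (n (n + 1) / 2)`. For every number `r` of general points of
`ℙⁿ`, the value `H_{n,r,m}(d)` is `min (binom (n + d) n) (r * binom (n + m - 1) n)`

* for all `d ≥ D`, and
* for all `d ≥ 0`, as soon as `r * binom (n + m - 1) n ≥ binom (n + D) n`.

So, for given `n` and `m`, the function `H_{n,r,m}` is known in all degrees for all but finitely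
many `r`, and for the remaining `r` in all but finitely many degrees, with explicit bounds.

The proof uses a differential Horace method over `K[t]` and an induction on `n`.
-/

set_option autoImplicit false

namespace Pool.Agent.Results.MP_b56c98_ag.EffectiveLargeDegrees

open MvPolynomial
open scoped LinearAlgebra.Projectivization

/-- The homogeneous prime ideal of a point of `ℙⁿ`: all the polynomials in `x₀, …, xₙ` which
vanish on the line of `ℂⁿ⁺¹` given by the point. -/
noncomputable def primeIdeal {n : ℕ} (p : ℙ ℂ (Fin (n + 1) → ℂ)) :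
    Ideal (MvPolynomial (Fin (n + 1)) ℂ) where
  carrier := {F | ∀ w ∈ p.submodule, eval w F = 0}
  add_mem' := by
    intro F G hF hG w hw
    rw [map_add, hF w hw, hG w hw, add_zero]
  zero_mem' := by
    intro w _
    exact map_zero _
  smul_mem' := by
    intro c F hF w hw
    rw [smul_eq_mul, map_mul, hF w hw, mul_zero]

/-- The `m`-th symbolic power of the ideal of the points `P₁, …, P_r`. -/
noncomputable def symbolicPower {n r : ℕ} (m : ℕ) (P : Fin r → ℙ ℂ (Fin (n + 1) → ℂ)) :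
    Ideal (MvPolynomial (Fin (n + 1)) ℂ) :=
  ⨅ i, primeIdeal (P i) ^ m

/-- The Hilbert function `dim R_d - dim J_d` of `R / J`. -/
noncomputable def hilbert {n : ℕ} (J : Ideal (MvPolynomial (Fin (n + 1)) ℂ)) (d : ℕ) : ℤ :=
  (Module.finrank ℂ (homogeneousSubmodule (Fin (n + 1)) ℂ d) : ℤ) -
    Module.finrank ℂ (homogeneousSubmodule (Fin (n + 1)) ℂ d ⊓ Submodule.restrictScalars ℂ J :
      Submodule ℂ (MvPolynomial (Fin (n + 1)) ℂ))

/-- Zariski open subsets of `(ℙⁿ)^r`: those which are defined, in terms of arbitrary homogeneous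
coordinates of the points, by the condition that some polynomial of a given set does not vanish. -/
def IsZariskiOpen {n r : ℕ} (U : Set (Fin r → ℙ ℂ (Fin (n + 1) → ℂ))) : Prop :=
  ∃ S : Set (MvPolynomial (Fin r × Fin (n + 1)) ℂ),
    ∀ (v : Fin r → Fin (n + 1) → ℂ) (hv : ∀ i, v i ≠ 0),
      ((fun i => Projectivization.mk ℂ (v i) (hv i)) ∈ U ↔
        ∃ f ∈ S, eval (fun x : Fin r × Fin (n + 1) => v x.1 x.2) f ≠ 0)

lemma primeIdeal_mk {n : ℕ} (v : Fin (n + 1) → ℂ) (hv : v ≠ 0) (h0 : v 0 ≠ 0) :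
    primeIdeal (Projectivization.mk ℂ v hv) = Ideal.span (Set.range fun j : Fin n =>
        (X j.succ - C (v j.succ / v 0) * X 0 : MvPolynomial (Fin (n + 1)) ℂ)) := by
  ext F
  rw [W608.PR.mem_span_iff v h0]
  change (∀ w ∈ (Projectivization.mk ℂ v hv).submodule, eval w F = 0) ↔
    ∀ t : ℂ, eval (t • v) F = 0
  rw [Projectivization.submodule_mk]
  constructor
  · intro h t
    exact h _ (Submodule.smul_mem _ _ (Submodule.mem_span_singleton_self v))
  · intro h w hw
    obtain ⟨t, rfl⟩ := Submodule.mem_span_singleton.1 hw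
    exact h t

lemma eval_scale {n r : ℕ} (t : Fin r → ℂ) (v : Fin r → Fin (n + 1) → ℂ)
    (G : MvPolynomial (Fin r × Fin (n + 1)) ℂ) :
    eval (fun x : Fin r × Fin (n + 1) => v x.1 x.2)
      (aeval (fun x : Fin r × Fin (n + 1) => C (t x.1) * X x) G)
      = eval (fun x : Fin r × Fin (n + 1) => (t x.1 • v x.1) x.2) G := by
  induction G using MvPolynomial.induction_on with
  | C a => simp [algebraMap_eq]
  | add p q hp hq => rw [map_add, map_add, hp, hq, map_add]
  | mul_X p i hp =>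
    rw [map_mul, map_mul, hp, map_mul, aeval_X, map_mul, eval_C, eval_X, eval_X]
    rfl

/-- Let `n ≥ 2`, `m ≥ 1` and `D = (n m) ^ (n (n + 1) / 2)`. For `r` general points of `ℙⁿ` the
Hilbert function of `R / I^(m)` is `min (binom (n + d) n) (r * binom (n + m - 1) n)` in all degrees
`d ≥ D`, and in all degrees if `r * binom (n + m - 1) n ≥ binom (n + D) n`. -/
theorem result (n m r : ℕ) (hn : 2 ≤ n) (hm : 1 ≤ m) :
    ∃ U : Set (Fin r → ℙ ℂ (Fin (n + 1) → ℂ)), IsZariskiOpen U ∧ U.Nonempty ∧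
      ∀ P ∈ U, ∀ d : ℕ,
        ((n * m) ^ (n * (n + 1) / 2) ≤ d ∨
          (n + (n * m) ^ (n * (n + 1) / 2)).choose n ≤ r * (n + m - 1).choose n) →
        hilbert (symbolicPower m P) d =
          min ((n + d).choose n : ℤ) ((r : ℤ) * ((n + m - 1).choose n : ℤ)) := by
  obtain ⟨E, rfl⟩ : ∃ E, n = E + 1 := ⟨n - 1, by omega⟩
  have hG := W608.PR.G_all ℂ hm E (by omega)
  obtain ⟨D, hD⟩ : ∃ D, D = ((E + 1) * m) ^ ((E + 1) * (E + 1 + 1) / 2) := ⟨_, rfl⟩
  have hDd : W608.PR.Dd (E + 1) m = D := hD.symm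
  rw [hDd] at hG
  rw [← hD]
  obtain ⟨F, hF, hF'⟩ := W608.PR.all_degrees hm hG (fun _ : Fin r => m) fun _ => le_rfl
  obtain ⟨N, Φ0, hΦ0⟩ := W608.PR.exists_homog F
  obtain ⟨Φ, hΦdef⟩ : ∃ Φ, Φ = Φ0 * ∏ k : Fin r, X (k, (0 : Fin (E + 1 + 1))) := ⟨_, rfl⟩
  have hΦ1 : ∀ v : Fin r → Fin (E + 1 + 1) → ℂ,
      eval (fun x : Fin r × Fin (E + 1 + 1) => v x.1 x.2) Φ ≠ 0 →
      (∀ i, v i 0 ≠ 0) ∧
        eval (fun x : Fin r × Fin (E + 1) => v x.1 x.2.succ / v x.1 0) F ≠ 0 := by
    intro v hv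
    rw [hΦdef, map_mul, map_prod] at hv
    have h1 : ∀ i, v i 0 ≠ 0 := by
      intro i
      have h2 := Finset.prod_ne_zero_iff.1 (right_ne_zero_of_mul hv) i (Finset.mem_univ i)
      rwa [eval_X] at h2
    refine ⟨h1, ?_⟩
    have h2 := left_ne_zero_of_mul hv
    rw [hΦ0 v h1] at h2
    exact right_ne_zero_of_mul h2
  obtain ⟨Q, hQ⟩ : ∃ Q : Fin r × Fin (E + 1) → ℂ, eval Q F ≠ 0 := by
    by_contra hcon
    push Not at hcon
    exact hF (MvPolynomial.funext fun w => by rw [hcon w, map_zero])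
  refine ⟨{P | ∃ (v : Fin r → Fin (E + 1 + 1) → ℂ) (hv : ∀ i, v i ≠ 0),
    (∀ i, Projectivization.mk ℂ (v i) (hv i) = P i) ∧
      eval (fun x : Fin r × Fin (E + 1 + 1) => v x.1 x.2) Φ ≠ 0}, ?_, ?_, ?_⟩
  · -- openness
    refine ⟨{f | ∃ t : Fin r → ℂ, (∀ i, t i ≠ 0) ∧
      f = aeval (fun x : Fin r × Fin (E + 1 + 1) => C (t x.1) * X x) Φ}, ?_⟩
    intro v hv
    constructor
    · rintro ⟨v', hv', h1, h2⟩
      have h3 : ∀ i, ∃ t : ℂ, t • v i = v' i := fun i =>
        (Projectivization.mk_eq_mk_iff' ℂ _ _ _ _).1 (h1 i)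
      choose t ht using h3
      have ht0 : ∀ i, t i ≠ 0 := by
        intro i h0
        apply hv' i
        rw [← ht i, h0, zero_smul]
      refine ⟨_, ⟨t, ht0, rfl⟩, ?_⟩
      rw [eval_scale]
      simpa only [ht] using h2
    · rintro ⟨f, ⟨t, ht0, rfl⟩, h2⟩
      rw [eval_scale] at h2
      refine ⟨fun i => t i • v i, fun i => smul_ne_zero (ht0 i) (hv i), fun i => ?_, h2⟩
      rw [Projectivization.mk_eq_mk_iff']
      exact ⟨t i, rfl⟩
  · -- nonempty
    let v : Fin r → Fin (E + 1 + 1) → ℂ := fun i => Fin.cons 1 (fun j => Q (i, j))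
    have hv0 : ∀ i, v i 0 = 1 := fun i => rfl
    have hv : ∀ i, v i ≠ 0 := fun i h0 => one_ne_zero ((hv0 i).symm.trans (congrFun h0 0))
    refine ⟨fun i => Projectivization.mk ℂ (v i) (hv i), v, hv, fun i => rfl, ?_⟩
    rw [hΦdef, map_mul, map_prod, hΦ0 v fun i => by rw [hv0]; exact one_ne_zero]
    simp only [eval_X, hv0, Finset.prod_const_one, one_pow, one_mul, mul_one, div_one]
    exact hQ
  · -- the value
    rintro P ⟨v, hv, h1, h2⟩ d hd
    obtain ⟨h3, h4⟩ := hΦ1 v h2
    have h5 : symbolicPower m P = ⨅ i, (H932R5.hI (K := ℂ) fun j : Fin (E + 1) =>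
        v i j.succ / v i 0) ^ m := by
      unfold symbolicPower
      refine iInf_congr fun i => ?_
      rw [← h1 i, primeIdeal_mk _ _ (h3 i)]
      rfl
    obtain ⟨h6, h7⟩ := hF' (fun i j => v i j.succ / v i 0) h4 d (by
      rw [Finset.sum_const, Finset.card_univ, Fintype.card_fin, smul_eq_mul]
      have e1 : E + 1 + D = D + E + 1 := by ring
      have e2 : E + 1 + m - 1 = m + E := by omega
      rw [e1, e2] at hd
      exact hd)
    unfold hilbert
    rw [h5]
    change (Module.finrank ℂ (homogeneousSubmodule (Fin (E + 2)) ℂ d) : ℤ) -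
      Module.finrank ℂ ↥(H932R5.Vd (K := ℂ) (E := E) d (fun _ : Fin r => m)
        fun i j => v i j.succ / v i 0) = _
    rw [W608.PR.finrank_homog, show E + 1 + d = d + E + 1 by ring,
      show E + 1 + m - 1 = m + E by omega]
    rw [Finset.sum_const, Finset.card_univ, Fintype.card_fin, smul_eq_mul] at h6 h7
    rcases Nat.le_total ((d + E + 1).choose (E + 1)) (r * (m + E).choose (E + 1)) with h | h
    · rw [(h6 h).finrank, Nat.cast_zero, sub_zero, min_eq_left]
      exact_mod_cast h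
    · have h8 := (h7 h).finrank
      rw [Finset.sum_const, Finset.card_univ, Fintype.card_fin, smul_eq_mul] at h8
      rw [min_eq_right (by exact_mod_cast h), ← h8]
      push_cast
      ring

end Pool.Agent.Results.MP_b56c98_ag.EffectiveLargeDegrees
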